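import Mathlib

/-!
# MP_435286_al : unit groups of monoids with context-free word problem

We construct a monoid with context-free word problem whose group of units is not finitely
generated.  The monoid is the special monoid on the five generators `o s`, `c s` (`s : Bool`)
and `b`, with the relations `o s * b ^ n * c s * o (!s) * b ^ n * c (!s) = 1` for all `n` and `s`.
-/

namespace Pool.Agent.Results.MP_435286_al.CFUnits

/-- The word problem of the monoid `M` with respect to the family `f : A → M`: the language of all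
words `u # v^rev` with `u` and `v` words over `A` that have the same value in `M`.  The alphabet is
`Option A`, the separator `#` is `none`. -/
def wordProblem {M A : Type} [Monoid M] (f : A → M) : Language (Option A) :=
  {x | ∃ u v : List A, (u.map f).prod = (v.map f).prod ∧
    x = u.map some ++ none :: (v.map some).reverse}

/-- `M` has context-free word problem: for some finite generating set (the image of the finite
type `A` under the injective map `f`) the word problem is a context-free language. -/
def HasContextFreeWordProblem (M : Type) [Monoid M] : Prop :=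
  ∃ (A : Type) (_ : Finite A) (f : A → M), Function.Injective f ∧
    Submonoid.closure (Set.range f) = ⊤ ∧ (wordProblem f).IsContextFree

/-- The five generators. -/
inductive A : Type
  | o : Bool → A
  | c : Bool → A
  | b : A
  deriving DecidableEq, Fintype

open A

/-- `b ^ n` as a word. -/
abbrev bs (n : ℕ) : List A := List.replicate n b

/-- The relator. -/
def rel (s : Bool) (n : ℕ) : List A := o s :: (bs n ++ c s :: o (!s) :: (bs n ++ [c (!s)]))

/-- The relations. -/
def rels (u v : FreeMonoid A) : Prop := ∃ s n, u = FreeMonoid.ofList (rel s n) ∧ v = 1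

/-- The monoid. -/
abbrev Mon : Type := PresentedMonoid rels

/-- The value of a word. -/
def ev (u : List A) : Mon := PresentedMonoid.mk rels (FreeMonoid.ofList u)

theorem ev_nil : ev [] = 1 := rfl

theorem ev_append (u v : List A) : ev (u ++ v) = ev u * ev v := rfl

theorem ev_cons (a : A) (v : List A) : ev (a :: v) = ev [a] * ev v := rfl

theorem ev_rel (s : Bool) (n : ℕ) : ev (rel s n) = 1 :=
  PresentedMonoid.mk_eq_mk_of_rel ⟨s, n, rfl, rfl⟩

theorem ev_eq_prod (u : List A) : (u.map (PresentedMonoid.of rels)).prod = ev u := by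
  induction u with
  | nil => rfl
  | cons a u ih => rw [List.map_cons, List.prod_cons, ih, ev_cons]; rfl

theorem ev_surj (m : Mon) : ∃ u, ev u = m := by
  obtain ⟨u, rfl⟩ := PresentedMonoid.surjective_mk m
  exact ⟨FreeMonoid.toList u, rfl⟩

/-- The reducible pattern, first letter removed. -/
def pat (s : Bool) (n : ℕ) (r : List A) : List A :=
  bs n ++ c s :: o (!s) :: (bs n ++ c (!s) :: r)

theorem bs_inj : ∀ {n m : ℕ} {s t : Bool} {x y : List A},
    bs n ++ c s :: x = bs m ++ c t :: y → n = m ∧ s = t ∧ x = y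
  | 0, 0, s, t, x, y, h => by simpa [bs] using h
  | 0, m + 1, s, t, x, y, h => by simp [bs, List.replicate_succ] at h
  | n + 1, 0, s, t, x, y, h => by simp [bs, List.replicate_succ] at h
  | n + 1, m + 1, s, t, x, y, h => by
    have h' : bs n ++ c s :: x = bs m ++ c t :: y := by
      simpa [bs, List.replicate_succ] using h
    have := bs_inj h'
    exact ⟨by omega, this.2⟩

theorem pat_inj {s : Bool} {n m : ℕ} {x y : List A} (h : pat s n x = pat s m y) :
    n = m ∧ x = y := by
  obtain ⟨rfl, -, h2⟩ := bs_inj h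
  have h3 := (List.cons.inj h2).2
  exact ⟨rfl, (bs_inj h3).2.2⟩

open Classical in
/-- One step of the stack machine: multiply by a letter on the left and reduce. -/
noncomputable def step : A → List A → List A
  | o s, st => if h : ∃ r, ∃ n, st = pat s n r then h.choose else o s :: st
  | c s, st => c s :: st
  | b, st => b :: st

theorem step_pat (s : Bool) (n : ℕ) (r : List A) : step (o s) (pat s n r) = r := by
  have h : ∃ r', ∃ n', pat s n r = pat s n' r' := ⟨r, n, rfl⟩
  simp only [step]
  rw [dif_pos h]
  obtain ⟨n', hn'⟩ := h.choose_spec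
  exact (pat_inj hn').2.symm

theorem step_nopat (s : Bool) (st : List A) (h : ¬ ∃ r, ∃ n, st = pat s n r) :
    step (o s) st = o s :: st := by
  simp only [step]
  rw [dif_neg h]

theorem step_cases (a : A) (st : List A) : step a st = a :: st ∨
    ∃ s n r, a = o s ∧ st = pat s n r ∧ step a st = r := by
  cases a with
  | o s =>
    by_cases h : ∃ r, ∃ n, st = pat s n r
    · obtain ⟨r, n, rfl⟩ := h
      exact Or.inr ⟨s, n, r, rfl, rfl, step_pat s n r⟩
    · exact Or.inl (step_nopat s st h)
  | c s => exact Or.inl rfl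
  | b => exact Or.inl rfl

/-- Irreducible words. -/
def Irr : List A → Prop
  | [] => True
  | a :: st => step a st = a :: st ∧ Irr st

theorem Irr.suffix : ∀ {x y : List A}, Irr (x ++ y) → Irr y
  | [], _, h => h
  | _ :: _, _, h => Irr.suffix h.2

theorem Irr.step {a : A} {st : List A} (h : Irr st) : Irr (step a st) := by
  rcases step_cases a st with h1 | ⟨s, n, r, rfl, rfl, h1⟩
  · rw [h1]; exact ⟨h1, h⟩
  · rw [h1]
    have : pat s n r = (bs n ++ c s :: o (!s) :: (bs n ++ [c (!s)])) ++ r := by
      simp [pat]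
    rw [this] at h
    exact h.suffix

/-- Act by a word. -/
noncomputable def act (u st : List A) : List A := u.foldr step st

theorem act_append (u v st : List A) : act (u ++ v) st = act u (act v st) := by
  simp [act, List.foldr_append]

theorem act_bs (n : ℕ) (st : List A) : act (bs n) st = bs n ++ st := by
  induction n with
  | zero => rfl
  | succ n ih =>
    have : act (bs (n + 1)) st = b :: act (bs n) st := rfl
    rw [this, ih]; rfl

theorem act_tok (s : Bool) (n : ℕ) (st : List A) :
    act (o s :: (bs n ++ [c s])) st = step (o s) (bs n ++ c s :: st) := by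
  have : act (o s :: (bs n ++ [c s])) st = step (o s) (act (bs n ++ [c s]) st) := rfl
  rw [this, act_append, act_bs]
  rfl

theorem act_rel (s : Bool) (n : ℕ) (st : List A) (h : Irr st) : act (rel s n) st = st := by
  have e : rel s n = (o s :: (bs n ++ [c s])) ++ (o (!s) :: (bs n ++ [c (!s)])) := by
    simp [rel]
  rw [e, act_append, act_tok, act_tok]
  rcases step_cases (o (!s)) (bs n ++ c (!s) :: st) with h1 | ⟨t, m, r, ht, hst, h1⟩
  · rw [h1]
    exact step_pat s n st
  · rw [h1]
    obtain rfl : (!s) = t := by simpa using ht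
    obtain ⟨rfl, -, h2⟩ := bs_inj hst
    subst h2
    have := h.1
    simp only [Bool.not_not] at this ⊢
    exact this

/-- The action of the monoid on irreducible words. -/
noncomputable def genAct (a : A) : Function.End {st : List A // Irr st} :=
  fun st => ⟨step a st.1, st.2.step⟩

theorem lift_genAct (u : List A) (st : {st : List A // Irr st}) :
    (FreeMonoid.lift genAct (FreeMonoid.ofList u) st).1 = act u st.1 := by
  induction u with
  | nil => rfl
  | cons a u ih =>
    have : FreeMonoid.lift genAct (FreeMonoid.ofList (a :: u)) st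
        = genAct a (FreeMonoid.lift genAct (FreeMonoid.ofList u) st) := by
      rw [FreeMonoid.ofList_cons, map_mul, FreeMonoid.lift_eval_of]
      rfl
    rw [this]
    simp only [genAct]
    rw [ih]
    rfl

/-- The action as a homomorphism. -/
noncomputable def actHom : Mon →* Function.End {st : List A // Irr st} :=
  PresentedMonoid.lift genAct (by
    rintro u v ⟨s, n, rfl, rfl⟩
    funext st
    apply Subtype.ext
    rw [lift_genAct, act_rel s n st.1 st.2]
    rfl)

theorem actHom_ev (u : List A) (st : {st : List A // Irr st}) :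
    (actHom (ev u) st).1 = act u st.1 := lift_genAct u st

/-- The normal form of an element. -/
noncomputable def nf (m : Mon) : List A := (actHom m ⟨[], trivial⟩).1

theorem nf_irr (m : Mon) : Irr (nf m) := (actHom m ⟨[], trivial⟩).2

theorem nf_ev (u : List A) : nf (ev u) = act u [] := actHom_ev u _

theorem nf_ev_mul (u : List A) (m : Mon) : nf (ev u * m) = act u (nf m) := by
  unfold nf
  rw [map_mul, ← actHom_ev u (actHom m ⟨[], trivial⟩)]
  rfl

theorem nf_one : nf 1 = [] := nf_ev []

theorem ev_step (a : A) (st : List A) : ev (step a st) = ev (a :: st) := by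
  rcases step_cases a st with h1 | ⟨s, n, r, rfl, rfl, h1⟩
  · rw [h1]
  · rw [h1]
    have : o s :: pat s n r = rel s n ++ r := by simp [pat, rel]
    rw [this, ev_append, ev_rel, one_mul]

theorem ev_act (u st : List A) : ev (act u st) = ev (u ++ st) := by
  induction u with
  | nil => rfl
  | cons a u ih =>
    have : act (a :: u) st = step a (act u st) := rfl
    rw [this, ev_step, ev_cons, ih]
    rfl

theorem ev_nf (m : Mon) : ev (nf m) = m := by
  obtain ⟨u, rfl⟩ := ev_surj m
  rw [nf_ev, ev_act, List.append_nil]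

theorem ev_eq_iff (u v : List A) : ev u = ev v ↔ act u [] = act v [] := by
  constructor
  · intro h
    rw [← nf_ev, ← nf_ev, h]
  · intro h
    have h1 := ev_act u []
    have h2 := ev_act v []
    rw [List.append_nil] at h1 h2
    rw [← h1, ← h2, h]

/-! ### Units -/

/-- Words that are products of tokens `b ^ n c s` and `o s b ^ n c s`. -/
inductive LI : List A → Prop
  | nil : LI []
  | tb (n : ℕ) (s : Bool) (st : List A) : LI st → LI (bs n ++ c s :: st)
  | tt (n : ℕ) (s : Bool) (st : List A) : LI st → LI (o s :: (bs n ++ c s :: st))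

theorem LI.b_inv {st : List A} (h : LI (b :: st)) : LI st := by
  generalize hx : b :: st = x at h
  cases h with
  | nil => simp at hx
  | tb n s st' h' =>
    cases n with
    | zero => simp [bs] at hx
    | succ n =>
      have : st = bs n ++ c s :: st' := by simpa [bs, List.replicate_succ] using hx
      rw [this]; exact .tb n s st' h'
  | tt n s st' h' => simp at hx

theorem LI.c_inv {s : Bool} {st : List A} (h : LI (c s :: st)) : LI st := by
  generalize hx : c s :: st = x at h
  cases h with
  | nil => simp at hx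
  | tb n s st' h' =>
    cases n with
    | zero =>
      have : st = st' := by
        have := (List.cons.inj hx).2
        simpa using this
      rw [this]; exact h'
    | succ n => simp [bs, List.replicate_succ] at hx
  | tt n s st' h' => simp at hx

theorem LI.o_inv {s : Bool} {st : List A} (h : LI (o s :: st)) : LI st := by
  generalize hx : o s :: st = x at h
  cases h with
  | nil => simp at hx
  | tb n s st' h' =>
    cases n with
    | zero => simp [bs] at hx
    | succ n => simp [bs, List.replicate_succ] at hx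
  | tt n s st' h' =>
    rw [(List.cons.inj hx).2]
    exact .tb n s st' h'

theorem LI.of_step {a : A} {st : List A} (h : LI (step a st)) : LI st := by
  rcases step_cases a st with h1 | ⟨s, n, r, rfl, rfl, h1⟩
  · rw [h1] at h
    cases a with
    | o s => exact h.o_inv
    | c s => exact h.c_inv
    | b => exact h.b_inv
  · rw [h1] at h
    exact .tb n s _ (.tt n (!s) r h)

theorem LI.of_act {u st : List A} (h : LI (act u st)) : LI st := by
  induction u with
  | nil => exact h
  | cons a u ih => exact ih (LI.of_step h)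

theorem LI.of_mul_eq_one {x y : Mon} (h : y * x = 1) : LI (nf x) := by
  obtain ⟨w, rfl⟩ := ev_surj y
  apply LI.of_act (u := w)
  rw [← nf_ev_mul, h, nf_one]
  exact .nil

/-- The weight of a letter. -/
def wt : A → ℤ
  | o _ => 1
  | c _ => -1
  | b => 0

/-- The weight homomorphism. -/
def wtHom : Mon →* Multiplicative ℤ :=
  PresentedMonoid.lift (fun a => Multiplicative.ofAdd (wt a)) (by
    rintro u v ⟨s, n, rfl, rfl⟩
    apply Multiplicative.toAdd.injective
    simp only [rel, FreeMonoid.lift_apply, FreeMonoid.toList_ofList]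
    simp [wt])

theorem wtHom_ev (u : List A) : (wtHom (ev u)).toAdd = (u.map wt).sum := by
  induction u with
  | nil => rfl
  | cons a u ih =>
    rw [ev_cons, map_mul, toAdd_mul, ih, List.map_cons, List.sum_cons]
    rfl

/-- Products of tokens `o s b ^ n c s` with `n ≤ N`. -/
inductive TK (N : ℕ) : List A → Prop
  | nil : TK N []
  | cons (n : ℕ) (s : Bool) (st : List A) : n ≤ N → TK N st → TK N (o s :: (bs n ++ c s :: st))

theorem TK.mono {N N' : ℕ} (h : N ≤ N') {st : List A} (ht : TK N st) : TK N' st := by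
  induction ht with
  | nil => exact .nil
  | cons n s st hn _ ih => exact .cons n s st (hn.trans h) ih

theorem LI.weight {st : List A} (h : LI st) :
    (st.map wt).sum ≤ 0 ∧ ((st.map wt).sum = 0 → ∃ N, TK N st) := by
  induction h with
  | nil => exact ⟨le_refl _, fun _ => ⟨0, .nil⟩⟩
  | tb n s st _ ih =>
    have e : ((bs n ++ c s :: st).map wt).sum = -1 + (st.map wt).sum := by
      simp [bs, wt]
    rw [e]
    exact ⟨by have := ih.1; omega, fun h0 => by have := ih.1; omega⟩
  | tt n s st _ ih =>
    have e : ((o s :: (bs n ++ c s :: st)).map wt).sum = (st.map wt).sum := by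
      simp [bs, wt]
    rw [e]
    refine ⟨ih.1, fun h0 => ?_⟩
    obtain ⟨N, hN⟩ := ih.2 h0
    exact ⟨max n N, .cons n s st (le_max_left _ _) (hN.mono (le_max_right _ _))⟩

theorem unit_TK (x : Monˣ) : ∃ N, TK N (nf x.1) := by
  have h1 : LI (nf x.1) := LI.of_mul_eq_one (y := x.2) (Units.inv_mul x)
  have h2 : LI (nf x.2) := LI.of_mul_eq_one (y := x.1) (Units.mul_inv x)
  have e1 : (wtHom x.1).toAdd = ((nf x.1).map wt).sum := by rw [← wtHom_ev, ev_nf]
  have e2 : (wtHom x.2).toAdd = ((nf x.2).map wt).sum := by rw [← wtHom_ev, ev_nf]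
  have e3 : (wtHom x.1).toAdd + (wtHom x.2).toAdd = 0 := by
    rw [← toAdd_mul, ← map_mul, x.3, map_one, toAdd_one]
  have l1 := h1.weight
  have l2 := h2.weight
  exact l1.2 (by omega)

/-- The unit `o s * b ^ n * c s`. -/
def al (s : Bool) (n : ℕ) : Monˣ where
  val := ev (o s :: (bs n ++ [c s]))
  inv := ev (o (!s) :: (bs n ++ [c (!s)]))
  val_inv := by
    rw [← ev_append, ← ev_nil]
    have : (o s :: (bs n ++ [c s])) ++ (o (!s) :: (bs n ++ [c (!s)])) = rel s n := by simp [rel]
    rw [this, ev_rel, ev_nil]
  inv_val := by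
    rw [← ev_append, ← ev_nil]
    have : (o (!s) :: (bs n ++ [c (!s)])) ++ (o s :: (bs n ++ [c s])) = rel (!s) n := by
      simp [rel]
    rw [this, ev_rel, ev_nil]

theorem al_inv (s : Bool) (n : ℕ) : (al s n)⁻¹ = al (!s) n := by
  apply Units.ext
  rfl

theorem nf_al_mul {N n : ℕ} (hn : n ≤ N) (s : Bool) (x : Mon) (hx : TK N (nf x)) :
    TK N (nf ((al s n : Mon) * x)) := by
  have : nf ((al s n : Mon) * x) = act (o s :: (bs n ++ [c s])) (nf x) := nf_ev_mul _ _
  rw [this, act_tok]
  rcases step_cases (o s) (bs n ++ c s :: nf x) with h1 | ⟨t, m, r, ht, hst, h1⟩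
  · rw [h1]
    exact .cons n s _ hn hx
  · rw [h1]
    obtain rfl : s = t := by simpa using ht
    obtain ⟨rfl, -, h2⟩ := bs_inj hst
    rw [h2] at hx
    generalize hy : o (!s) :: (bs n ++ c (!s) :: r) = y at hx
    cases hx with
    | nil => simp at hy
    | cons m t st hm ht =>
      obtain ⟨-, -, h3⟩ := bs_inj (List.cons.inj hy).2
      rw [h3]; exact ht

/-- The subgroup generated by the units `al s n` with `n ≤ N`. -/
def H (N : ℕ) : Subgroup Monˣ := Subgroup.closure {x | ∃ s n, n ≤ N ∧ x = al s n}

theorem H_mono {N N' : ℕ} (h : N ≤ N') : H N ≤ H N' := by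
  apply Subgroup.closure_mono
  rintro x ⟨s, n, hn, rfl⟩
  exact ⟨s, n, hn.trans h, rfl⟩

theorem mem_H_of_TK {N : ℕ} {st : List A} (h : TK N st) : ∃ x ∈ H N, (x : Mon) = ev st := by
  induction h with
  | nil => exact ⟨1, one_mem _, rfl⟩
  | cons n s st hn _ ih =>
    obtain ⟨x, hx, hx2⟩ := ih
    refine ⟨al s n * x, mul_mem (Subgroup.subset_closure ⟨s, n, hn, rfl⟩) hx, ?_⟩
    have : o s :: (bs n ++ c s :: st) = (o s :: (bs n ++ [c s])) ++ st := by simp
    rw [this, ev_append, Units.val_mul, hx2]
    rfl

theorem TK_of_mem_H {N : ℕ} {x : Monˣ} (h : x ∈ H N) : TK N (nf x) := by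
  induction h using Subgroup.closure_induction_left with
  | one => rw [Units.val_one, nf_one]; exact .nil
  | mul_left x hx y hy ih =>
    obtain ⟨s, n, hn, rfl⟩ := hx
    rw [Units.val_mul]
    exact nf_al_mul hn s _ ih
  | inv_mul_cancel x hx y hy ih =>
    obtain ⟨s, n, hn, rfl⟩ := hx
    rw [Units.val_mul, al_inv]
    exact nf_al_mul hn (!s) _ ih

theorem al_not_mem (N : ℕ) : al true (N + 1) ∉ H N := by
  intro h
  have h1 := TK_of_mem_H h
  have h2 : nf (al true (N + 1) : Mon) = o true :: (bs (N + 1) ++ c true :: []) := by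
    have : nf (al true (N + 1) : Mon) = act (o true :: (bs (N + 1) ++ [c true])) [] := nf_ev _
    rw [this, act_tok]
    apply step_nopat
    rintro ⟨r, n, h⟩
    have := (bs_inj h).2.2
    simp at this
  rw [h2] at h1
  generalize hy : o true :: (bs (N + 1) ++ c true :: []) = y at h1
  cases h1 with
  | nil => simp at hy
  | cons m t st hm ht =>
    obtain ⟨h3, -, -⟩ := bs_inj (List.cons.inj hy).2
    omega

theorem not_fg : ¬ Group.FG Monˣ := by
  intro h
  obtain ⟨S, hS⟩ := h.out
  have h1 : ∀ x : Monˣ, ∃ N, x ∈ H N := by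
    intro x
    obtain ⟨N, hN⟩ := unit_TK x
    obtain ⟨y, hy, hy2⟩ := mem_H_of_TK hN
    rw [ev_nf] at hy2
    have : y = x := Units.ext hy2
    exact ⟨N, this ▸ hy⟩
  choose f hf using h1
  have h2 : (⊤ : Subgroup Monˣ) ≤ H (S.sup f) := by
    rw [← hS, Subgroup.closure_le]
    intro x hx
    exact H_mono (Finset.le_sup hx) (hf x)
  exact al_not_mem _ (h2 (Subgroup.mem_top _))

/-! ### The grammar -/

/-- Words of value `1` (index `none`) and words of value `b ^ n c s o !s b ^ n` (index `some s`). -/
inductive EQ : Option Bool → List A → Prop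
  | nil : EQ none []
  | rel (s : Bool) (u v w : List A) : EQ none u → EQ (some s) v → EQ none w →
      EQ none (o s :: (u ++ (v ++ c (!s) :: w)))
  | qb (s : Bool) (u v w : List A) : EQ none u → EQ (some s) v → EQ none w →
      EQ (some s) (b :: (u ++ (v ++ b :: w)))
  | qc (s : Bool) (u v : List A) : EQ none u → EQ none v →
      EQ (some s) (c s :: (u ++ o (!s) :: v))

/-- `F st u`: the word `u` is obtained from `st` by inserting a word of value one after each
letter. -/
inductive F : List A → List A → Prop
  | nil : F [] []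
  | cons (a : A) (st e u : List A) : EQ none e → F st u → F (a :: st) (a :: (e ++ u))

theorem F.nil_inv {u : List A} (h : F [] u) : u = [] := by
  cases h; rfl

theorem F.cons_inv {a : A} {st u : List A} (h : F (a :: st) u) :
    ∃ e u', u = a :: (e ++ u') ∧ EQ none e ∧ F st u' := by
  cases h with
  | cons _ _ e u' he hu => exact ⟨e, u', rfl, he, hu⟩

theorem F.append_inv : ∀ {x y u : List A}, F (x ++ y) u → ∃ u1 u2, u = u1 ++ u2 ∧ F x u1 ∧ F y u2
  | [], y, u, h => ⟨[], u, rfl, .nil, h⟩
  | a :: x, y, u, h => by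
    obtain ⟨e, u', rfl, he, hu⟩ := F.cons_inv h
    obtain ⟨u1, u2, rfl, h1, h2⟩ := F.append_inv hu
    exact ⟨a :: (e ++ u1), u2, by simp, .cons a x e u1 he h1, h2⟩

theorem EQ_of_F (s : Bool) : ∀ (n : ℕ) (u : List A), F (bs n ++ c s :: o (!s) :: bs n) u →
    EQ (some s) u
  | 0, u, h => by
    have h' : F (c s :: o (!s) :: []) u := h
    obtain ⟨e, u, rfl, he, hu⟩ := h'.cons_inv
    obtain ⟨e', u, rfl, he', hu⟩ := hu.cons_inv
    rw [hu.nil_inv, List.append_nil]
    exact .qc s e e' he he'
  | n + 1, u, h => by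
    have e : bs (n + 1) ++ c s :: o (!s) :: bs (n + 1) =
        b :: ((bs n ++ c s :: o (!s) :: bs n) ++ [b]) := by
      rw [List.append_assoc]
      simp only [List.cons_append]
      rw [← List.replicate_succ' (n := n) (a := b)]
      rfl
    rw [e] at h
    obtain ⟨e, u, rfl, he, hu⟩ := h.cons_inv
    obtain ⟨u1, u2, rfl, h1, h2⟩ := hu.append_inv
    obtain ⟨e', u, rfl, he', hu⟩ := h2.cons_inv
    rw [hu.nil_inv, List.append_nil]
    exact .qb s e u1 e' he (EQ_of_F s n u1 h1) he'

theorem exists_F (u : List A) : ∃ e u', u = e ++ u' ∧ EQ none e ∧ F (act u []) u' := by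
  induction u with
  | nil => exact ⟨[], [], rfl, .nil, .nil⟩
  | cons a u ih =>
    obtain ⟨e, u', rfl, he, hu⟩ := ih
    have h0 : act (a :: (e ++ u')) [] = step a (act (e ++ u') []) := rfl
    rw [h0]
    rcases step_cases a (act (e ++ u') []) with h1 | ⟨s, n, r, rfl, hst, h1⟩
    · rw [h1]
      exact ⟨[], a :: (e ++ u'), rfl, .nil, .cons a _ e u' he hu⟩
    · rw [h1]
      rw [hst] at hu
      have : pat s n r = (bs n ++ c s :: o (!s) :: bs n) ++ (c (!s) :: r) := by simp [pat]
      rw [this] at hu
      obtain ⟨u1, u2, rfl, h2, h3⟩ := hu.append_inv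
      obtain ⟨e', u3, rfl, he', hu3⟩ := h3.cons_inv
      refine ⟨o s :: (e ++ (u1 ++ c (!s) :: e')), u3, by simp, ?_, hu3⟩
      exact .rel s e u1 e' he (EQ_of_F s n u1 h2) he'

/-- Nonterminals. -/
inductive NT : Type
  | W : NT
  | X : Bool → Option Bool → NT

/-- Labels of the rules. -/
inductive Lab : Type
  | nil : Bool → Lab
  | rel : Bool → Bool → Lab
  | qb : Bool → Bool → Lab
  | qc : Bool → Bool → Lab
  | wh : Lab
  | wa : A → Lab
  deriving Fintype

/-- Symbols. -/
abbrev Sym : Type := Symbol (Option A) NT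

/-- Terminal symbol of a letter. -/
abbrev t (a : A) : Sym := .terminal (some a)

/-- Nonterminal symbol. -/
abbrev x (r : Bool) (i : Option Bool) : Sym := .nonterminal (.X r i)

/-- Reverse if the flag is set. -/
def rv {α : Type} : Bool → List α → List α
  | false, l => l
  | true, l => l.reverse

/-- Input of a rule. -/
def inp : Lab → NT
  | .nil r => .X r none
  | .rel r _ => .X r none
  | .qb r s => .X r (some s)
  | .qc r s => .X r (some s)
  | .wh => .W
  | .wa _ => .W

/-- Output of a rule. -/
def out : Lab → List Sym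
  | .nil _ => []
  | .rel r s => rv r [t (o s), x r none, x r (some s), t (c (!s)), x r none]
  | .qb r s => rv r [t b, x r none, x r (some s), t b, x r none]
  | .qc r s => rv r [t (c s), x r none, t (o (!s)), x r none]
  | .wh => [x false none, .terminal none, x true none]
  | .wa a => [x false none, t a, .nonterminal .W, t a, x true none]

/-- The rule with a given label. -/
def rule (l : Lab) : ContextFreeRule (Option A) NT := ⟨inp l, out l⟩

/-- The grammar. -/
noncomputable def G : ContextFreeGrammar (Option A) :=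
  ⟨NT, NT.W, (Set.finite_range rule).toFinset⟩

theorem mem_rules (r : ContextFreeRule (Option A) NT) : r ∈ G.rules ↔ ∃ l, rule l = r := by
  change r ∈ (Set.finite_range rule).toFinset ↔ _
  rw [Set.Finite.mem_toFinset, Set.mem_range]

theorem derives_rule (l : Lab) : G.Derives [.nonterminal (inp l)] (out l) := by
  apply ContextFreeGrammar.Produces.single
  exact ⟨rule l, (mem_rules _).2 ⟨l, rfl⟩, ContextFreeRule.Rewrites.input_output⟩

theorem derives_cons {y : Sym} {l w1 w2 : List Sym} (h1 : G.Derives [y] w1)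
    (h2 : G.Derives l w2) : G.Derives (y :: l) (w1 ++ w2) := by
  have h3 : G.Derives ([y] ++ l) ([y] ++ w2) := h2.append_left [y]
  have h4 : G.Derives ([y] ++ w2) (w1 ++ w2) := h1.append_right w2
  exact h3.trans h4

/-- Terminal word. -/
abbrev tw (u : List A) : List Sym := u.map t

theorem derives_EQ {i : Option Bool} {u : List A} (h : EQ i u) (r : Bool) :
    G.Derives [x r i] (tw (rv r u)) := by
  induction h with
  | nil =>
    have := derives_rule (.nil r)
    cases r <;> exact this
  | rel s u v w _ _ _ hu hv hw =>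
    refine (derives_rule (.rel r s)).trans ?_
    cases r with
    | false =>
      have e : tw (rv false (o s :: (u ++ (v ++ c (!s) :: w)))) =
          [t (o s)] ++ (tw u ++ (tw v ++ ([t (c (!s))] ++ (tw w ++ [])))) := by
        simp [rv]
      rw [e]
      exact derives_cons (.refl _) (derives_cons hu (derives_cons hv (derives_cons (.refl _)
        (derives_cons hw (.refl _)))))
    | true =>
      have e : tw (rv true (o s :: (u ++ (v ++ c (!s) :: w)))) =
          tw w.reverse ++ ([t (c (!s))] ++ (tw v.reverse ++ (tw u.reverse ++ [t (o s)]))) := by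
        simp [rv]
      rw [e]
      exact derives_cons hw (derives_cons (.refl _) (derives_cons hv (derives_cons hu (.refl _))))
  | qb s u v w _ _ _ hu hv hw =>
    refine (derives_rule (.qb r s)).trans ?_
    cases r with
    | false =>
      have e : tw (rv false (b :: (u ++ (v ++ b :: w)))) =
          [t b] ++ (tw u ++ (tw v ++ ([t b] ++ (tw w ++ [])))) := by
        simp [rv]
      rw [e]
      exact derives_cons (.refl _) (derives_cons hu (derives_cons hv (derives_cons (.refl _)
        (derives_cons hw (.refl _)))))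
    | true =>
      have e : tw (rv true (b :: (u ++ (v ++ b :: w)))) =
          tw w.reverse ++ ([t b] ++ (tw v.reverse ++ (tw u.reverse ++ [t b]))) := by
        simp [rv]
      rw [e]
      exact derives_cons hw (derives_cons (.refl _) (derives_cons hv (derives_cons hu (.refl _))))
  | qc s u v _ _ hu hv =>
    refine (derives_rule (.qc r s)).trans ?_
    cases r with
    | false =>
      have e : tw (rv false (c s :: (u ++ o (!s) :: v))) =
          [t (c s)] ++ (tw u ++ ([t (o (!s))] ++ (tw v ++ []))) := by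
        simp [rv]
      rw [e]
      exact derives_cons (.refl _) (derives_cons hu (derives_cons (.refl _)
        (derives_cons hv (.refl _))))
    | true =>
      have e : tw (rv true (c s :: (u ++ o (!s) :: v))) =
          tw v.reverse ++ ([t (o (!s))] ++ (tw u.reverse ++ [t (c s)])) := by
        simp [rv]
      rw [e]
      exact derives_cons hv (derives_cons (.refl _) (derives_cons hu (.refl _)))

theorem derives_W : ∀ (st e e' u v : List A), EQ none e → EQ none e' → F st u → F st v →
    G.Derives [.nonterminal .W] (tw (e ++ u) ++ .terminal none :: tw (e' ++ v).reverse)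
  | [], e, e', u, v, he, he', hu, hv => by
    rw [hu.nil_inv, hv.nil_inv, List.append_nil, List.append_nil]
    refine (derives_rule .wh).trans ?_
    have h := derives_cons (derives_EQ he false)
      (derives_cons (y := .terminal none) (.refl _) (derives_EQ he' true))
    exact h
  | a :: st, e, e', u, v, he, he', hu, hv => by
    obtain ⟨e1, u1, rfl, he1, hu1⟩ := hu.cons_inv
    obtain ⟨e2, v1, rfl, he2, hv1⟩ := hv.cons_inv
    refine (derives_rule (.wa a)).trans ?_
    have ih := derives_W st e1 e2 u1 v1 he1 he2 hu1 hv1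
    have h := derives_cons (derives_EQ he false)
      (derives_cons (y := t a) (.refl _) (derives_cons ih (derives_cons (y := t a) (.refl _)
        (derives_EQ he' true))))
    have e3 : tw (e ++ a :: (e1 ++ u1)) ++ .terminal none :: tw (e' ++ a :: (e2 ++ v1)).reverse =
        tw (rv false e) ++ ([t a] ++ ((tw (e1 ++ u1) ++ .terminal none ::
          tw (e2 ++ v1).reverse) ++ ([t a] ++ tw (rv true e')))) := by
      simp [rv]
    rw [e3]
    exact h

/-- Meaning of the nonterminals. -/
def sem : NT → Language (Option A)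
  | .W => wordProblem (PresentedMonoid.of rels)
  | .X r none => {y | ∃ u : List A, ev u = 1 ∧ y = (rv r u).map some}
  | .X r (some s) => {y | ∃ (u : List A) (n : ℕ), ev u = ev (bs n ++ c s :: o (!s) :: bs n) ∧
      y = (rv r u).map some}

/-- Meaning of a symbol. -/
def semS : Sym → Language (Option A)
  | .terminal a => {[a]}
  | .nonterminal n => sem n

/-- Meaning of a sentential form. -/
def semL (l : List Sym) : Language (Option A) := (l.map semS).prod

theorem semL_append (l m : List Sym) : semL (l ++ m) = semL l * semL m := by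
  simp [semL]

theorem semL_nil : semL [] = 1 := rfl

theorem semL_cons (y : Sym) (m : List Sym) : semL (y :: m) = semS y * semL m := by
  simp [semL]

theorem mem_semL_cons {y : Sym} {m : List Sym} {w : List (Option A)} (h : w ∈ semL (y :: m)) :
    ∃ w1 ∈ semS y, ∃ w2 ∈ semL m, w = w1 ++ w2 := by
  rw [semL_cons, Language.mem_mul] at h
  obtain ⟨w1, h1, w2, h2, h3⟩ := h
  exact ⟨w1, h1, w2, h2, h3.symm⟩

theorem mem_semL_nil {w : List (Option A)} (h : w ∈ semL []) : w = [] := h

theorem mem_semS_terminal {a : Option A} {w : List (Option A)} (h : w ∈ semS (.terminal a)) :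
    w = [a] := h

theorem ev_bc_succ (s : Bool) (n : ℕ) :
    ev (bs (n + 1) ++ c s :: o (!s) :: bs (n + 1)) =
      ev [b] * (ev (bs n ++ c s :: o (!s) :: bs n) * ev [b]) := by
  have e : bs (n + 1) ++ c s :: o (!s) :: bs (n + 1) =
      [b] ++ ((bs n ++ c s :: o (!s) :: bs n) ++ [b]) := by
    rw [List.append_assoc]
    simp only [List.cons_append]
    rw [← List.replicate_succ' (n := n) (a := b)]
    rfl
  rw [e, ev_append, ev_append]

theorem ev_close (s : Bool) (n : ℕ) :
    ev [o s] * (ev (bs n ++ c s :: o (!s) :: bs n) * ev [c (!s)]) = 1 := by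
  rw [← ev_append, ← ev_append]
  have : [o s] ++ ((bs n ++ c s :: o (!s) :: bs n) ++ [c (!s)]) = rel s n := by simp [rel]
  rw [this, ev_rel]

theorem sound (l : Lab) : semL (out l) ≤ sem (inp l) := by
  intro w hw
  cases l with
  | nil r =>
    rw [mem_semL_nil hw]
    exact ⟨[], rfl, by cases r <;> rfl⟩
  | rel r s =>
    cases r with
    | false =>
      obtain ⟨w1, h1, w', hw1, rfl⟩ := mem_semL_cons hw
      obtain ⟨w2, ⟨u2, h2, rfl⟩, w'', hw2, rfl⟩ := mem_semL_cons hw1
      obtain ⟨w3, ⟨u3, n, h3, rfl⟩, w''', hw3, rfl⟩ := mem_semL_cons hw2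
      obtain ⟨w4, h4, w'''', hw4, rfl⟩ := mem_semL_cons hw3
      obtain ⟨w5, ⟨u5, h5, rfl⟩, w''''', hw5, rfl⟩ := mem_semL_cons hw4
      rw [mem_semL_nil hw5, mem_semS_terminal h1, mem_semS_terminal h4]
      refine ⟨[o s] ++ (u2 ++ (u3 ++ ([c (!s)] ++ u5))), ?_, by simp [rv]⟩
      rw [ev_append, ev_append, ev_append, ev_append, h2, h3, h5, one_mul, mul_one]
      exact ev_close s n
    | true =>
      obtain ⟨w5, ⟨u5, h5, rfl⟩, w', hw1, rfl⟩ := mem_semL_cons hw
      obtain ⟨w4, h4, w'', hw2, rfl⟩ := mem_semL_cons hw1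
      obtain ⟨w3, ⟨u3, n, h3, rfl⟩, w''', hw3, rfl⟩ := mem_semL_cons hw2
      obtain ⟨w2, ⟨u2, h2, rfl⟩, w'''', hw4, rfl⟩ := mem_semL_cons hw3
      obtain ⟨w1, h1, w''''', hw5, rfl⟩ := mem_semL_cons hw4
      rw [mem_semL_nil hw5, mem_semS_terminal h1, mem_semS_terminal h4]
      refine ⟨[o s] ++ (u2 ++ (u3 ++ ([c (!s)] ++ u5))), ?_, by simp [rv]⟩
      rw [ev_append, ev_append, ev_append, ev_append, h2, h3, h5, one_mul, mul_one]
      exact ev_close s n
  | qb r s =>
    cases r with
    | false =>
      obtain ⟨w1, h1, w', hw1, rfl⟩ := mem_semL_cons hw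
      obtain ⟨w2, ⟨u2, h2, rfl⟩, w'', hw2, rfl⟩ := mem_semL_cons hw1
      obtain ⟨w3, ⟨u3, n, h3, rfl⟩, w''', hw3, rfl⟩ := mem_semL_cons hw2
      obtain ⟨w4, h4, w'''', hw4, rfl⟩ := mem_semL_cons hw3
      obtain ⟨w5, ⟨u5, h5, rfl⟩, w''''', hw5, rfl⟩ := mem_semL_cons hw4
      rw [mem_semL_nil hw5, mem_semS_terminal h1, mem_semS_terminal h4]
      refine ⟨[b] ++ (u2 ++ (u3 ++ ([b] ++ u5))), n + 1, ?_, by simp [rv]⟩
      rw [ev_append, ev_append, ev_append, ev_append, h2, h3, h5, one_mul, mul_one, ev_bc_succ]
    | true =>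
      obtain ⟨w5, ⟨u5, h5, rfl⟩, w', hw1, rfl⟩ := mem_semL_cons hw
      obtain ⟨w4, h4, w'', hw2, rfl⟩ := mem_semL_cons hw1
      obtain ⟨w3, ⟨u3, n, h3, rfl⟩, w''', hw3, rfl⟩ := mem_semL_cons hw2
      obtain ⟨w2, ⟨u2, h2, rfl⟩, w'''', hw4, rfl⟩ := mem_semL_cons hw3
      obtain ⟨w1, h1, w''''', hw5, rfl⟩ := mem_semL_cons hw4
      rw [mem_semL_nil hw5, mem_semS_terminal h1, mem_semS_terminal h4]
      refine ⟨[b] ++ (u2 ++ (u3 ++ ([b] ++ u5))), n + 1, ?_, by simp [rv]⟩
      rw [ev_append, ev_append, ev_append, ev_append, h2, h3, h5, one_mul, mul_one, ev_bc_succ]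
  | qc r s =>
    cases r with
    | false =>
      obtain ⟨w1, h1, w', hw1, rfl⟩ := mem_semL_cons hw
      obtain ⟨w2, ⟨u2, h2, rfl⟩, w'', hw2, rfl⟩ := mem_semL_cons hw1
      obtain ⟨w4, h4, w''', hw3, rfl⟩ := mem_semL_cons hw2
      obtain ⟨w5, ⟨u5, h5, rfl⟩, w'''', hw4, rfl⟩ := mem_semL_cons hw3
      rw [mem_semL_nil hw4, mem_semS_terminal h1, mem_semS_terminal h4]
      refine ⟨[c s] ++ (u2 ++ ([o (!s)] ++ u5)), 0, ?_, by simp [rv]⟩
      rw [ev_append, ev_append, ev_append, h2, h5, one_mul, mul_one]
      rfl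
    | true =>
      obtain ⟨w5, ⟨u5, h5, rfl⟩, w', hw1, rfl⟩ := mem_semL_cons hw
      obtain ⟨w4, h4, w'', hw2, rfl⟩ := mem_semL_cons hw1
      obtain ⟨w2, ⟨u2, h2, rfl⟩, w''', hw3, rfl⟩ := mem_semL_cons hw2
      obtain ⟨w1, h1, w'''', hw4, rfl⟩ := mem_semL_cons hw3
      rw [mem_semL_nil hw4, mem_semS_terminal h1, mem_semS_terminal h4]
      refine ⟨[c s] ++ (u2 ++ ([o (!s)] ++ u5)), 0, ?_, by simp [rv]⟩
      rw [ev_append, ev_append, ev_append, h2, h5, one_mul, mul_one]
      rfl
  | wh =>
    obtain ⟨w1, ⟨u1, h1, rfl⟩, w', hw1, rfl⟩ := mem_semL_cons hw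
    obtain ⟨w2, h2, w'', hw2, rfl⟩ := mem_semL_cons hw1
    obtain ⟨w3, ⟨u3, h3, rfl⟩, w''', hw3, rfl⟩ := mem_semL_cons hw2
    rw [mem_semL_nil hw3, mem_semS_terminal h2]
    refine ⟨u1, u3, ?_, by simp [rv]⟩
    rw [ev_eq_prod, ev_eq_prod, h1, h3]
  | wa a =>
    obtain ⟨w1, ⟨u1, h1, rfl⟩, w', hw1, rfl⟩ := mem_semL_cons hw
    obtain ⟨w2, h2, w'', hw2, rfl⟩ := mem_semL_cons hw1
    obtain ⟨w3, ⟨u, v, h3, rfl⟩, w''', hw3, rfl⟩ := mem_semL_cons hw2
    obtain ⟨w4, h4, w'''', hw4, rfl⟩ := mem_semL_cons hw3
    obtain ⟨w5, ⟨u5, h5, rfl⟩, w''''', hw5, rfl⟩ := mem_semL_cons hw4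
    rw [mem_semL_nil hw5, mem_semS_terminal h2, mem_semS_terminal h4]
    refine ⟨u1 ++ ([a] ++ u), u5 ++ ([a] ++ v), ?_, by simp [rv]⟩
    rw [ev_eq_prod, ev_eq_prod] at h3 ⊢
    rw [ev_append, ev_append, ev_append, ev_append, h1, h5, h3]

theorem sound_context (k : Lab) (p q : List Sym) :
    semL (p ++ out k ++ q) ≤ semL (p ++ [Symbol.nonterminal (inp k)] ++ q) := by
  rw [semL_append, semL_append, semL_append, semL_append]
  have h1 : semL [Symbol.nonterminal (inp k)] = sem (inp k) := by
    simp [semL, semS]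
  rw [h1]
  have h2 : semL (out k) ≤ sem (inp k) := sound k
  gcongr

theorem sound_produces {l m : List Sym} (h : G.Produces l m) : semL m ≤ semL l := by
  obtain ⟨r, hr, h⟩ := h
  obtain ⟨k, rfl⟩ := (mem_rules _).1 hr
  obtain ⟨p, q, rfl, rfl⟩ := h.exists_parts
  exact sound_context k p q

theorem sound_derives {l m : List Sym} (h : G.Derives l m) : semL m ≤ semL l := by
  induction h with
  | refl => exact le_refl _
  | tail _ h ih => exact (sound_produces h).trans ih

theorem semL_terminal (w : List (Option A)) : w ∈ semL (w.map Symbol.terminal) := by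
  induction w with
  | nil => exact rfl
  | cons a w ih =>
    rw [List.map_cons, semL_cons, Language.mem_mul]
    exact ⟨[a], rfl, w, ih, rfl⟩

theorem language_G : G.language = wordProblem (PresentedMonoid.of rels) := by
  apply Set.Subset.antisymm
  · intro w hw
    have h1 : G.Derives [.nonterminal .W] (w.map Symbol.terminal) := hw
    have h2 : w ∈ semL ([Symbol.nonterminal NT.W] : List Sym) :=
      sound_derives h1 (semL_terminal w)
    have h3 : semL ([Symbol.nonterminal NT.W] : List Sym) = sem .W := by simp [semL, semS]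
    rw [h3] at h2
    exact h2
  · rintro w ⟨u, v, h, rfl⟩
    rw [ev_eq_prod, ev_eq_prod, ev_eq_iff] at h
    obtain ⟨e, u', hu, he, hu'⟩ := exists_F u
    obtain ⟨e', v', hv, he', hv'⟩ := exists_F v
    rw [← h] at hv'
    have := derives_W _ e e' u' v' he he' hu' hv'
    rw [← hu, ← hv] at this
    have e : tw u ++ .terminal none :: tw v.reverse =
        (u.map some ++ none :: (v.map some).reverse).map Symbol.terminal := by
      simp [tw, Function.comp_def]
    rw [e] at this
    exact this

theorem of_injective : Function.Injective (PresentedMonoid.of rels) := by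
  intro a a' h
  have h1 : ev [a] = ev [a'] := h
  rw [ev_eq_iff] at h1
  have h2 : ∀ a : A, act [a] [] = [a] := by
    intro a
    have : act [a] [] = step a [] := rfl
    rw [this]
    rcases step_cases a [] with h | ⟨s, n, r, _, h, _⟩
    · exact h
    · simp [pat] at h
  rw [h2, h2] at h1
  simpa using h1

/-- There is a monoid with context-free word problem whose group of units is not finitely
generated. -/
theorem result : ∃ (M : Type) (_ : Monoid M), HasContextFreeWordProblem M ∧ ¬ Group.FG Mˣ :=
  ⟨Mon, inferInstance, ⟨A, inferInstance, PresentedMonoid.of rels, of_injective,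
    PresentedMonoid.closure_range_of rels, G, language_G⟩, not_fg⟩

end Pool.Agent.Results.MP_435286_al.CFUnits
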